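import Mathlib

set_option autoImplicit false

namespace Pool.Agent.Results.MP_e8eed4_co.MajorityThree

open scoped ENNReal
open Finset Filter

section splitting

/-- every graph has a two-colouring in which each non-isolated vertex has a neighbour of the other
colour (parity of the distance from a root of the component) -/
lemma split_adj {V : Type} (H : SimpleGraph V) :
    ∃ ψ : V → Bool, ∀ v, (∃ u, H.Adj v u) → ∃ u, H.Adj v u ∧ ψ u ≠ ψ v := by
  classical
  let root : V → V := fun v => (H.connectedComponentMk v).out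
  have hroot : ∀ v, H.Reachable (root v) v := by
    intro v
    apply SimpleGraph.ConnectedComponent.exact
    exact Quot.out_eq _
  have hadj : ∀ u v, H.Adj u v → root u = root v := by
    intro u v h
    simp only [root]
    rw [SimpleGraph.ConnectedComponent.sound h.reachable]
  refine ⟨fun v => decide (H.dist (root v) v % 2 = 0), ?_⟩
  rintro v ⟨u, hu⟩
  -- it suffices to find a neighbour whose distance from the root differs by one
  have key : ∀ x, H.Adj v x → (H.dist (root v) x = H.dist (root v) v + 1 ∨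
      H.dist (root v) v = H.dist (root v) x + 1) →
      ∃ u, H.Adj v u ∧ decide (H.dist (root u) u % 2 = 0) ≠ decide (H.dist (root v) v % 2 = 0) := by
    intro x hx hd
    refine ⟨x, hx, ?_⟩
    rw [← hadj v x hx]
    intro h
    have := decide_eq_decide.1 h
    omega
  rcases Nat.eq_zero_or_pos (H.dist (root v) v) with h0 | hpos
  · have hrv : root v = v := by
      rcases SimpleGraph.dist_eq_zero_iff_eq_or_not_reachable.1 h0 with h | h
      · exact h
      · exact absurd (hroot v) h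
    refine key u hu (Or.inl ?_)
    rw [h0, hrv]
    exact SimpleGraph.dist_eq_one_iff_adj.2 hu
  · obtain ⟨p, hp⟩ := (hroot v).exists_walk_length_eq_dist
    -- look at the last edge of a shortest walk
    have hq : ∃ (x : V) (q : H.Walk (root v) x), H.Adj x v ∧ q.length + 1 = p.length := by
      have hrev : ∀ (r : V) (p' : H.Walk v r), 0 < p'.length →
          ∃ (x : V) (q : H.Walk x r), H.Adj v x ∧ q.length + 1 = p'.length := by
        intro r p' hp'
        cases p' with
        | nil => simp at hp'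
        | @cons _ x _ hvx q => exact ⟨x, q, hvx, rfl⟩
      obtain ⟨x, q, h1, h2⟩ := hrev (root v) p.reverse (by simp; omega)
      exact ⟨x, q.reverse, h1.symm, by simpa using h2⟩
    obtain ⟨x, q, hxv, hlen⟩ := hq
    refine key x hxv.symm (Or.inr ?_)
    have h1 : H.dist (root v) x ≤ q.length := SimpleGraph.dist_le q
    have h2 : H.dist (root v) v ≤ H.dist (root v) x + 1 := by
      obtain ⟨r, hr⟩ := q.reachable.exists_walk_length_eq_dist
      rw [← hr]
      have := SimpleGraph.dist_le (r.concat hxv)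
      rwa [SimpleGraph.Walk.length_concat] at this
    omega

/-- in a countable set one two-colouring splits all infinite neighbourhoods at once -/
lemma split_infinite {V : Type} [Countable V] (R : V → V → Prop) :
    ∃ ψ : V → Bool, ∀ v, {u | R v u}.Infinite → {u | R v u ∧ ψ u ≠ ψ v}.Infinite := by
  classical
  let O : {v // {u | R v u}.Infinite} × Finset V → Set (V → Bool) := fun j =>
    {ψ | ∃ u, u ∉ j.2 ∧ R j.1.1 u ∧ ψ u ≠ ψ j.1.1}
  have hopen : ∀ j, IsOpen (O j) := by
    intro j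
    have : O j = ⋃ u ∈ {u | u ∉ j.2 ∧ R j.1.1 u}, {ψ : V → Bool | ψ u ≠ ψ j.1.1} := by
      ext ψ
      simp [O, and_assoc]
    rw [this]
    refine isOpen_biUnion fun u _ => ?_
    exact isOpen_ne_fun (continuous_apply u) (continuous_apply j.1.1)
  have hdense : ∀ j, Dense (O j) := by
    intro j
    rw [dense_iff_inter_open]
    intro s hs ⟨ψ₀, h₀⟩
    obtain ⟨I, t, hIt, hsub⟩ := isOpen_pi_iff.1 hs ψ₀ h₀
    obtain ⟨x, hx, hxn⟩ := j.1.2.exists_notMem_finset (I ∪ j.2 ∪ {j.1.1})
    rw [Finset.mem_union, Finset.mem_union, Finset.mem_singleton, not_or, not_or] at hxn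
    refine ⟨Function.update ψ₀ x (!ψ₀ j.1.1), hsub ?_, x, hxn.1.2, hx, ?_⟩
    · intro a ha
      have hax : a ≠ x := by rintro rfl; exact hxn.1.1 ha
      rw [Function.update_of_ne hax]
      exact (hIt a ha).2
    · rw [Function.update_self, Function.update_of_ne (Ne.symm hxn.2)]
      simp
  obtain ⟨ψ, hψ⟩ := (dense_iInter_of_isOpen hopen hdense).nonempty
  refine ⟨ψ, fun v hv => ?_⟩
  intro hfin
  rw [Set.mem_iInter] at hψ
  obtain ⟨u, h1, h2, h3⟩ := hψ (⟨v, hv⟩, hfin.toFinset)
  apply h1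
  rw [Set.Finite.mem_toFinset]
  exact ⟨h2, h3⟩

end splitting


section finite_part
variable {V : Type}

/-- weight to equally coloured vertices -/
noncomputable def Sm (W : V → V → ℝ≥0∞) (φ : V → Fin 3) (v : V) : ℝ≥0∞ := by
  classical
  exact ∑' u, if φ u = φ v then W v u else 0

/-- weight to differently coloured vertices -/
noncomputable def Df (W : V → V → ℝ≥0∞) (φ : V → Fin 3) (v : V) : ℝ≥0∞ := by
  classical
  exact ∑' u, if φ u ≠ φ v then W v u else 0

/-- the finite maximum-cut argument -/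
lemma fin_part (W : V → V → ℝ≥0∞) (hsymm : ∀ u v, W u v = W v u) (hdiag : ∀ v, W v v = 0)
    (φ₀ : V → Fin 3) (s : Finset V) (hs : ∀ v ∈ s, ∑' u, W v u ≠ ∞)
    (hs' : ∀ v ∈ s, {u | W v u ≠ 0}.Finite) :
    ∃ φ : V → Fin 3, (∀ v, v ∉ s → φ v = φ₀ v) ∧ (∀ v ∈ s, φ v ≠ 2) ∧
      ∀ v ∈ s, Sm W φ v ≤ Df W φ v := by
  classical
  have hfin : ∀ v ∈ s, ∀ u, W v u ≠ ∞ := fun v hv u =>
    ne_top_of_le_ne_top (hs v hv) (ENNReal.le_tsum u)
  -- a finite set containing all neighbours of `s`
  obtain ⟨N, hN⟩ : ∃ N : Finset V, s ⊆ N ∧ ∀ v ∈ s, ∀ u, W v u ≠ 0 → u ∈ N := by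
    have hfin' : (⋃ v ∈ (s : Set V), {u | W v u ≠ 0}).Finite :=
      s.finite_toSet.biUnion fun v hv => hs' v hv
    refine ⟨s ∪ hfin'.toFinset, subset_union_left, fun v hv u hu => ?_⟩
    rw [mem_union, Set.Finite.mem_toFinset]
    right
    simp only [Set.mem_iUnion]
    exact ⟨v, hv, hu⟩
  obtain ⟨hsN, hN⟩ := hN
  let w : V → V → ℝ := fun a b => if a ∈ s ∨ b ∈ s then (W a b).toReal else 0
  have hwsymm : ∀ a b, w a b = w b a := by
    intro a b
    simp only [w]
    rw [hsymm a b]
    simp only [or_comm]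
  have hw0 : ∀ a b, 0 ≤ w a b := by
    intro a b; simp only [w]; split_ifs <;> simp
  have hwd : ∀ a, w a a = 0 := by
    intro a; simp [w, hdiag]
  let Q : (V → Fin 3) → V → V → ℝ := fun φ a b => if φ a ≠ φ b then w a b else 0
  have hQs : ∀ φ a b, Q φ a b = Q φ b a := by
    intro φ a b
    simp only [Q]
    rw [hwsymm a b]
    simp only [ne_comm]
  let E : (V → Fin 3) → ℝ := fun φ => ∑ a ∈ N, ∑ b ∈ N, Q φ a b
  let col : (s → Bool) → V → Fin 3 := fun χ v => if h : v ∈ s then (if χ ⟨v, h⟩ then 1 else 0)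
    else φ₀ v
  obtain ⟨χ, hχ⟩ := Finite.exists_max (fun χ : s → Bool => E (col χ))
  refine ⟨col χ, fun v hv => by simp [col, hv], fun v hv => ?_, fun v hv => ?_⟩
  · simp only [col, hv, dif_pos]
    split_ifs <;> decide
  · let χ' := Function.update χ ⟨v, hv⟩ (!χ ⟨v, hv⟩)
    have hmax := hχ χ'
    have hother : ∀ u, u ≠ v → col χ' u = col χ u := by
      intro u hu
      simp only [col]
      by_cases h : u ∈ s
      · have e : χ' ⟨u, h⟩ = χ ⟨u, h⟩ := by
          apply Function.update_of_ne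
          intro h'
          exact hu (congrArg Subtype.val h')
        simp only [h, dif_pos, e]
      · simp only [h, dif_neg, not_false_iff]
    have hself : col χ' v ≠ col χ v := by
      have e : χ' ⟨v, hv⟩ = !χ ⟨v, hv⟩ := Function.update_self _ _ _
      simp only [col, hv, dif_pos, e]
      cases χ ⟨v, hv⟩ <;> simp
    have hvN : v ∈ N := hsN hv
    have hE : ∀ φ : V → Fin 3, E φ = (∑ a ∈ N.erase v, ∑ b ∈ N.erase v, Q φ a b) +
        2 * ∑ b ∈ N.erase v, Q φ v b := by
      intro φ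
      have h1 : ∀ a, ∑ b ∈ N, Q φ a b = Q φ a v + ∑ b ∈ N.erase v, Q φ a b := by
        intro a
        exact (Finset.add_sum_erase N (fun b => Q φ a b) hvN).symm
      have h2 : E φ = ∑ a ∈ N, (Q φ a v + ∑ b ∈ N.erase v, Q φ a b) :=
        Finset.sum_congr rfl fun a _ => h1 a
      rw [h2, ← Finset.add_sum_erase N _ hvN, Finset.sum_add_distrib]
      have h3 : Q φ v v = 0 := by simp [Q]
      have h4 : ∑ a ∈ N.erase v, Q φ a v = ∑ b ∈ N.erase v, Q φ v b :=
        Finset.sum_congr rfl fun a _ => hQs φ a v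
      rw [h3, h4]
      ring
    rw [hE (col χ), hE (col χ')] at hmax
    have hrest : ∑ a ∈ N.erase v, ∑ b ∈ N.erase v, Q (col χ') a b =
        ∑ a ∈ N.erase v, ∑ b ∈ N.erase v, Q (col χ) a b := by
      apply Finset.sum_congr rfl
      intro a ha
      apply Finset.sum_congr rfl
      intro b hb
      simp only [Q]
      rw [hother a (ne_of_mem_erase ha), hother b (ne_of_mem_erase hb)]
    rw [hrest] at hmax
    have hle : ∑ b ∈ N.erase v, Q (col χ') v b ≤ ∑ b ∈ N.erase v, Q (col χ) v b := by linarith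
    -- flipping `v` makes the former equal neighbours different
    have hge : ∑ b ∈ N.erase v, (if col χ b = col χ v then w v b else 0) ≤
        ∑ b ∈ N.erase v, Q (col χ') v b := by
      apply Finset.sum_le_sum
      intro b hb
      simp only [Q]
      rw [hother b (ne_of_mem_erase hb)]
      by_cases h : col χ b = col χ v
      · rw [if_pos h, if_pos (by rw [h]; exact hself)]
      · rw [if_neg h]
        split_ifs
        · exact hw0 _ _
        · exact le_rfl
    have hfinal : ∑ b ∈ N, (if col χ b = col χ v then w v b else 0) ≤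
        ∑ b ∈ N, (if col χ b ≠ col χ v then w v b else 0) := by
      rw [← Finset.add_sum_erase N _ hvN, ← Finset.add_sum_erase N _ hvN]
      simp only [hwd, ite_self, zero_add]
      refine hge.trans (hle.trans (le_of_eq ?_))
      apply Finset.sum_congr rfl
      intro b _
      simp only [Q, ne_comm]
    -- back to extended sums
    have hw : ∀ b, w v b = (W v b).toReal := by
      intro b; simp [w, hv]
    have hS : Sm W (col χ) v = ∑ b ∈ N, (if col χ b = col χ v then W v b else 0) := by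
      unfold Sm
      apply tsum_eq_sum
      intro b hb
      have : W v b = 0 := by
        by_contra h
        exact hb (hN v hv b h)
      simp [this]
    have hD : Df W (col χ) v = ∑ b ∈ N, (if col χ b ≠ col χ v then W v b else 0) := by
      unfold Df
      apply tsum_eq_sum
      intro b hb
      have : W v b = 0 := by
        by_contra h
        exact hb (hN v hv b h)
      simp [this]
    rw [hS, hD]
    have f1 : ∀ b ∈ N, (if col χ b = col χ v then W v b else 0) ≠ ∞ := by
      intro b _; split_ifs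
      · exact hfin v hv b
      · simp
    have f2 : ∀ b ∈ N, (if col χ b ≠ col χ v then W v b else 0) ≠ ∞ := by
      intro b _; split_ifs
      · exact hfin v hv b
      · simp
    rw [← ENNReal.toReal_le_toReal (ENNReal.sum_ne_top.2 f1) (ENNReal.sum_ne_top.2 f2),
      ENNReal.toReal_sum f1, ENNReal.toReal_sum f2]
    have e1 : ∀ b, (if col χ b = col χ v then W v b else 0).toReal =
        (if col χ b = col χ v then w v b else 0) := by
      intro b; rw [hw]; split_ifs <;> simp
    have e2 : ∀ b, (if col χ b ≠ col χ v then W v b else 0).toReal =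
        (if col χ b ≠ col χ v then w v b else 0) := by
      intro b; rw [hw]; split_ifs <;> simp
    simp only [e1, e2]
    exact hfinal


/-- from finite sets to arbitrary sets of vertices of finite weight -/
lemma ext_part (W : V → V → ℝ≥0∞) (hsymm : ∀ u v, W u v = W v u) (hdiag : ∀ v, W v v = 0)
    (φ₀ : V → Fin 3) (F : Set V) (hs : ∀ v ∈ F, ∑' u, W v u ≠ ∞)
    (hs' : ∀ v ∈ F, {u | W v u ≠ 0}.Finite) (h2 : ∀ v ∈ F, φ₀ v ≠ 2) :
    ∃ φ : V → Fin 3, (∀ v, v ∉ F → φ v = φ₀ v) ∧ (∀ v ∈ F, φ v ≠ 2) ∧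
      ∀ v ∈ F, Sm W φ v ≤ Df W φ v := by
  classical
  have hex : ∀ s : Finset F, ∃ φ : V → Fin 3, (∀ v, v ∉ F → φ v = φ₀ v) ∧ (∀ v ∈ F, φ v ≠ 2) ∧
      ∀ v ∈ s, Sm W φ v ≤ Df W φ v := by
    intro s
    obtain ⟨φ, h1, h3, h4⟩ := fin_part W hsymm hdiag φ₀ (s.map (Function.Embedding.subtype _))
      (by
        intro v hv
        rw [Finset.mem_map] at hv
        obtain ⟨x, _, rfl⟩ := hv
        exact hs _ x.2)
      (by
        intro v hv
        rw [Finset.mem_map] at hv
        obtain ⟨x, _, rfl⟩ := hv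
        exact hs' _ x.2)
    refine ⟨φ, fun v hv => ?_, fun v hv => ?_, fun v hv => ?_⟩
    · apply h1
      intro h
      rw [Finset.mem_map] at h
      obtain ⟨x, _, rfl⟩ := h
      exact hv x.2
    · by_cases hvs : v ∈ s.map (Function.Embedding.subtype _)
      · exact h3 v hvs
      · rw [h1 v hvs]; exact h2 v hv
    · exact h4 _ (Finset.mem_map_of_mem _ hv)
  choose φs hφ1 hφ2 hφ3 using hex
  let 𝒰 : Ultrafilter (Finset F) := Ultrafilter.of atTop
  have h𝒰 : (𝒰 : Filter (Finset F)) ≤ atTop := Ultrafilter.of_le _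
  have hlim : ∀ u : V, ∃ k : Fin 3, ∀ᶠ s in (𝒰 : Filter (Finset F)), φs s u = k := by
    intro u
    have h : ∀ᶠ s in (𝒰 : Filter (Finset F)), φs s u = 0 ∨ φs s u = 1 ∨ φs s u = 2 := by
      apply Filter.Eventually.of_forall
      intro s
      have h3 : ∀ k : Fin 3, k = 0 ∨ k = 1 ∨ k = 2 := by decide
      exact h3 _
    rcases Ultrafilter.eventually_or.1 h with h | h
    · exact ⟨0, h⟩
    · rcases Ultrafilter.eventually_or.1 h with h | h
      · exact ⟨1, h⟩
      · exact ⟨2, h⟩
  choose φ hφ using hlim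
  refine ⟨φ, fun v hv => ?_, fun v hv => ?_, fun v hv => ?_⟩
  · obtain ⟨s, hs⟩ := (hφ v).exists
    rw [← hs]; exact hφ1 s v hv
  · obtain ⟨s, hs⟩ := (hφ v).exists
    rw [← hs]; exact hφ2 s v hv
  · have h1 : ∀ᶠ s in (𝒰 : Filter (Finset F)), {(⟨v, hv⟩ : F)} ≤ s :=
      h𝒰 (eventually_ge_atTop _)
    have h3 : ∀ᶠ s in (𝒰 : Filter (Finset F)), ∀ u ∈ {u | W v u ≠ 0}, φs s u = φ u :=
      (Filter.eventually_all_finite (hs' v hv)).2 fun u _ => hφ u
    obtain ⟨s, ⟨hs1, hs2⟩, hs3⟩ := ((h1.and h3).and (hφ v)).exists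
    have h4 := hφ3 s ⟨v, hv⟩ (hs1 (mem_singleton_self _))
    have e1 : Sm W (φs s) v = Sm W φ v := by
      unfold Sm
      congr 1
      ext u
      by_cases hu : W v u = 0
      · simp [hu]
      · rw [hs2 u hu, hs3]
    have e2 : Df W (φs s) v = Df W φ v := by
      unfold Df
      congr 1
      ext u
      by_cases hu : W v u = 0
      · simp [hu]
      · rw [hs2 u hu, hs3]
    rw [← e1, ← e2]
    exact h4

/-- infinitely many differently coloured neighbours of weight at least one -/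
lemma df_top (W : V → V → ℝ≥0∞) (hW : ∀ u v, W u v = 0 ∨ 1 ≤ W u v) (φ : V → Fin 3) (v : V)
    (h : {u | W v u ≠ 0 ∧ φ u ≠ φ v}.Infinite) : Df W φ v = ∞ := by
  classical
  by_contra hcon
  apply h
  unfold Df at hcon
  have := ENNReal.finite_const_le_of_tsum_ne_top hcon one_ne_zero
  apply this.subset
  rintro u ⟨h1, h2⟩
  rw [Set.mem_ofPred_eq, if_pos h2]
  exact (hW v u).resolve_left h1

lemma df_top' (W : V → V → ℝ≥0∞) (φ : V → Fin 3) (v u : V) (h : W v u = ∞) (h' : φ u ≠ φ v) :
    Df W φ v = ∞ := by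
  classical
  unfold Df
  apply top_le_iff.1
  calc ∞ = (if φ u ≠ φ v then W v u else 0) := by rw [if_pos h', h]
    _ ≤ _ := ENNReal.le_tsum u

/-- the theorem for weight functions on pairs -/
lemma main_pairs [Countable V] (W : V → V → ℝ≥0∞) (hsymm : ∀ u v, W u v = W v u)
    (hdiag : ∀ v, W v v = 0) (hW : ∀ u v, W u v = 0 ∨ 1 ≤ W u v) :
    ∃ φ : V → Fin 3, ∀ v, Sm W φ v ≤ Df W φ v := by
  classical
  -- vertices of finite weight, vertices with an edge of infinite weight, and the remaining ones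
  let F : Set V := {v | ∑' u, W v u ≠ ∞}
  let Ia : Set V := {v | ∃ u, W v u = ∞}
  let A : Set V := {v | v ∉ F ∧ v ∉ Ia ∧ {u | W v u ≠ 0 ∧ (u ∈ F ∨ u ∈ Ia)}.Infinite}
  have hFIa : ∀ v, v ∈ F → v ∉ Ia := by
    rintro v hv ⟨u, hu⟩
    exact ne_top_of_le_ne_top hv (ENNReal.le_tsum u) hu
  have hFfin : ∀ v ∈ F, {u | W v u ≠ 0}.Finite := by
    intro v hv
    apply (ENNReal.finite_const_le_of_tsum_ne_top hv one_ne_zero).subset
    intro u hu
    exact (hW v u).resolve_left hu
  -- colouring of `Ia`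
  let H : SimpleGraph V :=
    { Adj := fun u v => W u v = ∞
      symm := ⟨fun u v h => by rw [hsymm]; exact h⟩
      loopless := ⟨fun v h => by rw [hdiag] at h; exact ENNReal.zero_ne_top h⟩ }
  obtain ⟨ψ₁, hψ₁⟩ := split_adj H
  -- colouring of the rest
  obtain ⟨ψ₂, hψ₂⟩ := split_infinite (fun v u => W v u ≠ 0 ∧ u ∉ F ∧ u ∉ Ia ∧ u ∉ A)
  let b2 : Bool → Fin 3 := fun b => if b then 1 else 0
  have hb2 : ∀ b b' : Bool, b ≠ b' → b2 b ≠ b2 b' := by decide
  have hb2' : ∀ b : Bool, b2 b ≠ 2 := by decide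
  let φ₀ : V → Fin 3 := fun v => if v ∈ F then 0 else if v ∈ Ia then b2 (ψ₁ v) else
    if v ∈ A then 2 else b2 (ψ₂ v)
  obtain ⟨φ, h1, h2, h3⟩ := ext_part W hsymm hdiag φ₀ F (fun v hv => hv) hFfin
    (fun v hv => by simp only [φ₀, if_pos hv]; decide)
  have cIa : ∀ v, v ∈ Ia → φ v = b2 (ψ₁ v) := by
    intro v hv
    have hvF : v ∉ F := fun h => hFIa v h hv
    rw [h1 v hvF]
    simp only [φ₀, if_neg hvF, if_pos hv]
  have cA : ∀ v, v ∈ A → φ v = 2 := by
    intro v hv
    rw [h1 v hv.1]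
    simp only [φ₀, if_neg hv.1, if_neg hv.2.1, if_pos hv]
  have cK : ∀ v, v ∉ F → v ∉ Ia → v ∉ A → φ v = b2 (ψ₂ v) := by
    intro v hv1 hv2 hv3
    rw [h1 v hv1]
    simp only [φ₀, if_neg hv1, if_neg hv2, if_neg hv3]
  refine ⟨φ, fun v => ?_⟩
  by_cases hvF : v ∈ F
  · exact h3 v hvF
  suffices h : Df W φ v = ∞ by rw [h]; exact le_top
  by_cases hvIa : v ∈ Ia
  · obtain ⟨u, hu, hne⟩ := hψ₁ v hvIa
    apply df_top' W φ v u hu
    have huIa : u ∈ Ia := ⟨v, by rw [hsymm]; exact hu⟩
    rw [cIa v hvIa, cIa u huIa]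
    exact hb2 _ _ hne
  by_cases hvA : v ∈ A
  · apply df_top W hW
    apply hvA.2.2.mono
    rintro u ⟨hu1, hu2⟩
    refine ⟨hu1, ?_⟩
    rw [cA v hvA]
    rcases hu2 with hu2 | hu2
    · exact h2 u hu2
    · rw [cIa u hu2]; exact hb2' _
  -- a vertex with infinitely many neighbours outside `F ∪ Ia`
  have hinf : {u | W v u ≠ 0}.Infinite := by
    intro hfin
    apply hvF
    change ∑' u, W v u ≠ ∞
    rw [tsum_eq_sum (s := hfin.toFinset)]
    · apply ENNReal.sum_ne_top.2
      intro u _ h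
      exact hvIa ⟨u, h⟩
    · intro u hu
      rw [Set.Finite.mem_toFinset, Set.mem_ofPred_eq, not_not] at hu
      exact hu
  have hfinFI : {u | W v u ≠ 0 ∧ (u ∈ F ∨ u ∈ Ia)}.Finite := by
    by_contra h
    exact hvA ⟨hvF, hvIa, h⟩
  have hrest : ({u | W v u ≠ 0} \ {u | W v u ≠ 0 ∧ (u ∈ F ∨ u ∈ Ia)}).Infinite :=
    hinf.sdiff hfinFI
  have hsplit : ({u | W v u ≠ 0 ∧ u ∈ A} ∪
      {u | W v u ≠ 0 ∧ u ∉ F ∧ u ∉ Ia ∧ u ∉ A}).Infinite := by
    apply hrest.mono
    rintro u ⟨hu1, hu2⟩
    have hu1' : W v u ≠ 0 := hu1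
    by_cases huA : u ∈ A
    · exact Or.inl ⟨hu1', huA⟩
    · refine Or.inr ⟨hu1', fun h => hu2 ⟨hu1', Or.inl h⟩, fun h => hu2 ⟨hu1', Or.inr h⟩, huA⟩
  rw [Set.infinite_union] at hsplit
  apply df_top W hW
  rcases hsplit with h | h
  · apply h.mono
    rintro u ⟨hu1, hu2⟩
    refine ⟨hu1, ?_⟩
    rw [cA u hu2, cK v hvF hvIa hvA]
    exact (hb2' _).symm
  · apply (hψ₂ v h).mono
    rintro u ⟨⟨hu1, hu2, hu3, hu4⟩, hne⟩
    refine ⟨hu1, ?_⟩
    rw [cK v hvF hvIa hvA, cK u hu2 hu3 hu4]
    exact hb2 _ _ hne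

end finite_part

section multigraph

variable {V E : Type}

/-- total weight of the bichromatic edges at `v` of the multigraph with edge ends `ends` -/
noncomputable def D (ends : E → Sym2 V) (w : E → ℕ) (φ : V → Fin 3) (v : V) : ℝ≥0∞ := by
  classical
  exact ∑' e : E, if ∃ u, ends e = s(v, u) ∧ φ u ≠ φ v then (w e : ℝ≥0∞) else 0

/-- total weight of the monochromatic edges at `v` -/
noncomputable def S (ends : E → Sym2 V) (w : E → ℕ) (φ : V → Fin 3) (v : V) : ℝ≥0∞ := by
  classical
  exact ∑' e : E, if ∃ u, ends e = s(v, u) ∧ φ u = φ v then (w e : ℝ≥0∞) else 0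

/-- exchange of the sums over edges and over neighbours -/
lemma sum_exchange (ends : E → Sym2 V) (w : E → ℕ) (v : V) (p : V → Prop) :
    (open Classical in
      ∑' e : E, if ∃ u, ends e = s(v, u) ∧ p u then (w e : ℝ≥0∞) else 0) =
    (open Classical in
      ∑' u : V, if p u then (∑' e : E, if ends e = s(v, u) then (w e : ℝ≥0∞) else 0) else 0) := by
  classical
  have h1 : ∀ u : V, (if p u then (∑' e : E, if ends e = s(v, u) then (w e : ℝ≥0∞) else 0) else 0) =
      ∑' e : E, if ends e = s(v, u) ∧ p u then (w e : ℝ≥0∞) else 0 := by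
    intro u
    by_cases hp : p u
    · simp [hp]
    · simp [hp]
  simp only [h1]
  rw [ENNReal.tsum_comm]
  congr 1
  ext e
  by_cases h : ∃ u, ends e = s(v, u) ∧ p u
  · obtain ⟨u, hu, hpu⟩ := h
    rw [if_pos ⟨u, hu, hpu⟩, tsum_eq_single u, if_pos ⟨hu, hpu⟩]
    intro u' hu'
    rw [if_neg]
    rintro ⟨h1, _⟩
    apply hu'
    rw [hu] at h1
    rw [Sym2.eq_iff] at h1
    rcases h1 with ⟨_, h⟩ | ⟨h, h'⟩
    · exact h.symm
    · rw [← h, h']
  · rw [if_neg h]
    symm
    rw [ENNReal.tsum_eq_zero]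
    intro u
    rw [if_neg]
    rintro ⟨h1, h2⟩
    exact h ⟨u, h1, h2⟩

end multigraph

/-- **Answer to Q1: no such multigraph exists.**  Every countable multigraph (arbitrary parallel
edges, arbitrary weights in `ℕ`, no loops) is majority `3`-colourable. -/
theorem result (V E : Type) [Countable V] (ends : E → Sym2 V) (hloop : ∀ e, ¬ (ends e).IsDiag)
    (w : E → ℕ) : ∃ φ : V → Fin 3, ∀ v : V, S ends w φ v ≤ D ends w φ v := by
  classical
  let W : V → V → ℝ≥0∞ := fun v u => ∑' e : E, if ends e = s(v, u) then (w e : ℝ≥0∞) else 0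
  have hsymm : ∀ u v, W u v = W v u := by
    intro u v
    simp only [W]
    rw [Sym2.eq_swap]
  have hdiag : ∀ v, W v v = 0 := by
    intro v
    simp only [W]
    rw [ENNReal.tsum_eq_zero]
    intro e
    rw [if_neg]
    intro h
    apply hloop e
    rw [h]
    exact Sym2.mk_isDiag_iff.2 rfl
  have hW : ∀ u v, W u v = 0 ∨ 1 ≤ W u v := by
    intro u v
    by_cases h : ∀ e, (if ends e = s(u, v) then (w e : ℝ≥0∞) else 0) = 0
    · left
      exact ENNReal.tsum_eq_zero.2 h
    · right
      push Not at h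
      obtain ⟨e, he⟩ := h
      refine le_trans ?_ (ENNReal.le_tsum e)
      by_cases h' : ends e = s(u, v)
      · rw [if_pos h'] at he ⊢
        have : w e ≠ 0 := by
          rintro h0; apply he; simp [h0]
        exact_mod_cast Nat.one_le_iff_ne_zero.2 this
      · rw [if_neg h'] at he; exact absurd rfl he
  obtain ⟨φ, hφ⟩ := main_pairs W hsymm hdiag hW
  refine ⟨φ, fun v => ?_⟩
  have h := hφ v
  unfold Sm Df at h
  unfold S D
  rw [sum_exchange ends w v (fun u => φ u = φ v), sum_exchange ends w v (fun u => φ u ≠ φ v)]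
  refine (le_of_eq ?_).trans (h.trans (le_of_eq ?_))
  · apply tsum_congr
    intro u
    by_cases hu : φ u = φ v
    · rw [if_pos hu, if_pos hu]
    · rw [if_neg hu, if_neg hu]
  · apply tsum_congr
    intro u
    by_cases hu : φ u ≠ φ v
    · rw [if_pos hu, if_pos hu]
    · rw [if_neg hu, if_neg hu]

end Pool.Agent.Results.MP_e8eed4_co.MajorityThree
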